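import Pool.Agent.Q50.HK.Defs

/-!
# Semiample line bundles and algebraic dimension in twistor families of hyperkähler manifolds
-/

set_option autoImplicit false

universe u

namespace Pool.Agent.Q34.HT

open Pool.Agent.Q50.HK

/-- A component of the moduli space of marked hyperkähler manifolds (see `Moduli`) of dimension
`2 * half`, with the monodromy group `mon`; `semiample M x`: the line bundle on `M` with class `x` is
semiample; `adim M`: the algebraic dimension of `M`. -/
structure Lines (n : ℕ) extends Moduli.{u} n where
  /-- the monodromy group -/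
  mon : Subgroup (V n ≃ₗ[ℝ] V n)
  /-- the line bundle with class `x` is semiample -/
  semiample : Mk → V n → Prop
  /-- half of the dimension -/
  half : ℕ
  /-- the algebraic dimension -/
  adim : Mk → ℕ

variable {n : ℕ}

namespace Lines

variable (T : Lines.{u} n)

/-- Known facts: see `Moduli.Facts`. `finite_index` (Verbitsky): the monodromy group has finite index in
the group of the isometries of the lattice. `orbits`: there are finitely many orbits of the monodromy
group on the set of the primitive isotropic classes (Borel and Harish-Chandra), so every isotropic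
class is mapped to a multiple of one of finitely many. `relabel`: the marking may be changed by a
monodromy operator. `power`: `L` is semiample if and only if `L ^ k` is, `k > 0`. `matsushita`: if `L`,
`L'` on `M`, `M'` are nef with the same class `l`, `q(l) = 0`, and `L` is semiample, then so is `L'`.
`of_adim`: on a non-projective manifold of dimension `2 * half` and algebraic dimension `half` the nef
line bundles are semiample. `adim_of`: if a non-projective manifold has a non-trivial semiample line
bundle with `q = 0`, its algebraic dimension is `half` (Matsushita; Campana, Oguiso and Peternell). -/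
structure Facts : Prop extends T.toModuli.Facts where
  finite_index : ∃ k : ℕ, 0 < k ∧ ∀ φ : V n ≃ₗ[ℝ] V n, (∀ x y, T.B (φ x) (φ y) = T.B x y) →
    (∀ x, IsInt x ↔ IsInt (φ x)) → φ ^ k ∈ T.mon
  orbits : ∃ S : Finset (V n), (∀ s ∈ S, IsInt s ∧ s ≠ 0 ∧ T.B s s = 0) ∧
    ∀ l, IsInt l → l ≠ 0 → T.B l l = 0 → ∃ s ∈ S, ∃ φ ∈ T.mon, ∃ k : ℕ, 0 < k ∧ φ l = (k : ℝ) • s
  relabel : ∀ φ ∈ T.mon, ∀ M, ∃ M', (∀ x, T.semiample M' (φ x) ↔ T.semiample M x) ∧
    ∀ x, T.NefIsotropic M x → T.NefIsotropic M' (φ x)
  power : ∀ M x (k : ℕ), 0 < k → (T.semiample M ((k : ℝ) • x) ↔ T.semiample M x)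
  matsushita : ∀ M M' l, T.NefIsotropic M l → T.NefIsotropic M' l → T.semiample M l →
    T.semiample M' l
  of_adim : ∀ M l, ¬ T.Projective M → T.adim M = T.half → T.NefIsotropic M l → T.semiample M l
  adim_of : ∀ M l, ¬ T.Projective M → T.NefIsotropic M l → T.semiample M l → T.adim M = T.half

end Lines

/-- `M'` is a member of the twistor family of the Kähler class `x` on `M`: its period is contained in the
positive three-dimensional space `W` spanned by the period of `M` and by `x`, and some Kähler class of `M'`
lies in `W`. -/
def Member (T : Moduli.{u} n) (M : T.Mk) (x : V n) (M' : T.Mk) : Prop :=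
  T.period M' ≤ T.period M ⊔ Submodule.span ℝ {x} ∧
    ∃ y ∈ T.kahler M', y ∈ T.period M ⊔ Submodule.span ℝ {x}

end Pool.Agent.Q34.HT
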