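import Pool.Agent.Q34.HT.Defs
import Pool.Agent.Q34.HF.Main
import Pool.Agent.Q50.HK.LMain

/-!
# One twistor family decides
-/

set_option autoImplicit false
set_option maxHeartbeats 4000000
set_option synthInstance.maxHeartbeats 400000

universe u

namespace Pool.Agent.Q34.HT

open Pool.Agent.Q50.HK Pool.Agent.Q50.HK.Moduli Pool.Agent.Q34.HF

variable {n : ℕ}

section

variable {T : Moduli.{u} n}

/-- The exceptional classes: differences `y - c l` of type `(1,1)`, where `l`, `y` are integral and `l` is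
not of type `(1,1)`. -/
def Exc (T : Moduli.{u} n) (P : Submodule ℝ (V n)) : Set (V n) :=
  {z | z ≠ 0 ∧ T.Orth P z ∧ ∃ l y, IsInt l ∧ IsInt y ∧ ¬ T.Orth P l ∧ ∃ c : ℝ, z = y - c • l}

theorem exc_countable (T : Moduli.{u} n) (P : Submodule ℝ (V n)) : (Exc T P).Countable := by
  have h1 : Exc T P ⊆ ⋃ p ∈ ({x : V n | IsInt x} ×ˢ {x : V n | IsInt x}),
      {z : V n | T.Orth P z ∧ ¬ T.Orth P p.1 ∧ ∃ c : ℝ, z = p.2 - c • p.1} := by
    rintro z ⟨-, hz, l, y, hl, hy, hlP, c, hc⟩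
    simp only [Set.mem_iUnion]
    exact ⟨(l, y), ⟨hl, hy⟩, hz, hlP, c, hc⟩
  refine Set.Countable.mono h1 ?_
  refine Set.Countable.biUnion (countable_int.prod countable_int) ?_
  rintro ⟨l, y⟩ -
  refine Set.Subsingleton.countable ?_
  rintro z ⟨hz, hlP, c, hc⟩ z' ⟨hz', -, c', hc'⟩
  have h2 : c = c' := by
    by_contra hne
    apply hlP
    intro p hp
    have e1 := hz p hp
    have e2 := hz' p hp
    rw [hc, map_sub, map_smul, smul_eq_mul] at e1
    rw [hc', map_sub, map_smul, smul_eq_mul] at e2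
    have h3 : (c - c') * T.B p l = 0 := by
      simp only at e1 e2
      linarith
    exact (mul_eq_zero.1 h3).resolve_left (sub_ne_zero.2 hne)
  rw [hc, hc', h2]

/-- **The member of the twistor family on which a given isotropic class is nef.** -/
theorem exists_member (hT : T.Facts) {M : T.Mk} {x : V n} (hx : x ∈ T.kahler M)
    (hgen : ∀ d ∈ Exc T (T.period M), T.B x d ≠ 0) {l : V n} (hl : IsInt l) (h0 : l ≠ 0)
    (hq : T.B l l = 0) (hlP : ¬ T.Orth (T.period M) l) :
    ∃ M', Member T M x M' ∧ T.NefIsotropic M' l ∧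
      ∀ y, T.NS M' y ↔ IsInt y ∧ ∃ c : ℝ, y = c • l := by
  obtain ⟨hP2, hPp⟩ := hT.period M
  have hxr := (hT.kahler M x hx).1
  set P := T.period M with hPdef
  set W : Submodule ℝ (V n) := P ⊔ Submodule.span ℝ {x} with hW
  have hxW : x ∈ W := Submodule.mem_sup_right (Submodule.mem_span_singleton_self x)
  have hPW : P ≤ W := le_sup_left
  have hWp : T.PosDef W := by
    intro w hw hw0
    obtain ⟨p, hp, q, hq', rfl⟩ := Submodule.mem_sup.1 hw
    obtain ⟨t, rfl⟩ := Submodule.mem_span_singleton.1 hq'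
    have e : T.B (p + t • x) (p + t • x) = T.B p p + t ^ 2 * T.B x x := by
      simp only [map_add, LinearMap.add_apply, map_smul, LinearMap.smul_apply, smul_eq_mul,
        hT.symm x p, hxr.1 p hp]
      ring
    rw [e]
    by_cases hp0 : p = 0
    · have ht : t ≠ 0 := by
        rintro rfl
        apply hw0
        rw [hp0]
        simp
      rw [hp0]
      have := mul_pos (pow_pos (abs_pos.2 ht) 2) hxr.2.1
      rw [sq_abs] at this
      simpa using this
    · have h1 := hPp p hp hp0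
      have h2 := mul_nonneg (sq_nonneg t) hxr.2.1.le
      linarith
  -- the plane orthogonal to `l`
  let f : W →ₗ[ℝ] ℝ := (T.B l).comp W.subtype
  have hf0 : f ≠ 0 := by
    intro hf
    apply hlP
    intro p hp
    have := LinearMap.congr_fun hf ⟨p, hPW hp⟩
    rw [hT.symm]
    exact this
  have hW3 : Module.finrank ℝ W = 3 := by
    have hxP : x ∉ P := by
      intro hxP
      have := hxr.1 x hxP
      exact hxr.2.1.ne' this
    have h1 := finrank_sup (N := P) hxP
    rw [hP2] at h1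
    exact h1
  set Q : Submodule ℝ (V n) := (LinearMap.ker f).map W.subtype with hQ
  have hQmem : ∀ v, v ∈ Q ↔ v ∈ W ∧ T.B l v = 0 := by
    intro v
    rw [hQ, Submodule.mem_map]
    constructor
    · rintro ⟨⟨v', hv'⟩, h1, rfl⟩
      exact ⟨hv', LinearMap.mem_ker.1 h1⟩
    · rintro ⟨h1, h2⟩
      exact ⟨⟨v, h1⟩, LinearMap.mem_ker.2 h2, rfl⟩
  have hQ2 : Module.finrank ℝ Q = 2 := by
    have h1 := LinearMap.finrank_range_add_finrank_ker f
    have h2 : LinearMap.range f = ⊤ := by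
      rw [LinearMap.range_eq_top]
      exact LinearMap.surjective hf0
    rw [h2, finrank_top, Module.finrank_self, hW3] at h1
    rw [hQ, Submodule.finrank_map_subtype_eq]
    omega
  have hQW : Q ≤ W := fun v hv => ((hQmem v).1 hv).1
  have hQp : T.PosDef Q := fun v hv hv0 => hWp v (hQW hv) hv0
  have hlQ : T.Orth Q l := fun v hv => by
    rw [hT.symm]
    exact ((hQmem v).1 hv).2
  -- the Kähler class
  obtain ⟨w, hwW, hw0, hwQ⟩ : ∃ w ∈ W, w ≠ 0 ∧ T.Orth Q w := by
    let g : W →ₗ[ℝ] (Q →ₗ[ℝ] ℝ) :=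
      { toFun := fun v => (T.B (v : V n)).comp Q.subtype
        map_add' := by
          intro x y
          ext w
          simp
        map_smul' := by
          intro c x
          ext w
          simp }
    have h1 : LinearMap.ker g ≠ ⊥ := by
      apply LinearMap.ker_ne_bot_of_finrank_lt
      rw [Subspace.dual_finrank_eq, hQ2, hW3]
      norm_num
    obtain ⟨e, he, he0⟩ := (Submodule.ne_bot_iff _).1 h1
    refine ⟨e, e.2, fun h => he0 (Subtype.ext h), fun p hp => ?_⟩
    rw [hT.symm]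
    exact LinearMap.congr_fun (LinearMap.mem_ker.1 he) ⟨p, hp⟩
  have hlw : T.B l w ≠ 0 := by
    intro h1
    have h2 := hwQ w ((hQmem w).2 ⟨hwW, h1⟩)
    exact (hWp w hwW hw0).ne' h2
  set w₁ : V n := T.B l w • w with hw₁
  have hw₁W : w₁ ∈ W := W.smul_mem _ hwW
  have hlw₁ : 0 < T.B l w₁ := by
    rw [hw₁, map_smul, smul_eq_mul]
    exact mul_self_pos.2 hlw
  have hw₁0 : w₁ ≠ 0 := smul_ne_zero hlw hw0
  have hw₁Q : T.Orth Q w₁ := by
    intro p hp
    rw [hw₁, map_smul, hwQ p hp, smul_zero]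
  have hw₁w : 0 < T.B w₁ w₁ := hWp w₁ hw₁W hw₁0
  -- integral classes orthogonal to the plane are multiples of `l`
  have hmult : ∀ y, IsInt y → T.Orth Q y → ∃ c : ℝ, y = c • l := by
    intro y hy hyQ
    refine ⟨T.B y w₁ / T.B l w₁, ?_⟩
    set c : ℝ := T.B y w₁ / T.B l w₁ with hc
    have hcc : c * T.B l w₁ = T.B y w₁ := div_mul_cancel₀ _ hlw₁.ne'
    by_contra hne
    have hz0 : y - c • l ≠ 0 := sub_ne_zero.2 hne
    have hzW : ∀ v ∈ W, T.B v (y - c • l) = 0 := by
      intro v hv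
      have h1 : v - (T.B l v / T.B l w₁) • w₁ ∈ Q := by
        rw [hQmem]
        refine ⟨W.sub_mem hv (W.smul_mem _ hw₁W), ?_⟩
        rw [map_sub, map_smul, smul_eq_mul, div_mul_cancel₀ _ hlw₁.ne', sub_self]
      have h2 := hyQ _ h1
      rw [map_sub, LinearMap.sub_apply, map_smul, LinearMap.smul_apply, smul_eq_mul] at h2
      rw [map_sub, map_smul, smul_eq_mul, hT.symm v l]
      have h3 : T.B l v / T.B l w₁ * T.B w₁ y = c * T.B l v := by
        rw [hT.symm w₁ y, ← hcc]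
        field_simp
      linarith
    exact hgen _ ⟨hz0, fun p hp => hzW p (hPW hp), l, y, hl, hy, hlP, c, rfl⟩ (hzW x hxW)
  have hnombm : ∀ δ ∈ T.mbm, ¬ T.Orth Q δ := by
    intro δ hδ hδQ
    obtain ⟨hδi, hδn⟩ := hT.mbm δ hδ
    obtain ⟨c, rfl⟩ := hmult δ hδi hδQ
    simp only [map_smul, LinearMap.smul_apply, smul_eq_mul, hq, mul_zero, lt_irrefl] at hδn
  have hreg : T.Regular Q w₁ := ⟨hw₁Q, hw₁w, fun δ hδ hδQ => absurd hδQ (hnombm δ hδ)⟩
  obtain ⟨M', hM', hwM'⟩ := hT.surjective Q w₁ hQ2 hQp hreg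
  have hch := (hT.kahler M' w₁ hwM').2
  rw [hM'] at hch
  refine ⟨M', ⟨by rw [hM']; exact hQW, w₁, hwM', hw₁W⟩, ⟨⟨hl, by rw [hM']; exact hlQ⟩, h0, hq, ?_⟩,
    fun y => ⟨fun hy => ⟨hy.1, hmult y hy.1 (by rw [← hM']; exact hy.2)⟩, ?_⟩⟩
  · intro y hy
    obtain ⟨hyr, hyc⟩ := (hch y).1 hy
    have hyl : 0 < T.B y l := pos_of_pos hT hQ2 hQp hw₁Q hw₁w hyr.1 hyr.2.1 hlQ hq
      (by rw [hT.symm]; exact hlw₁) hyc.1
    refine (hch _).2 ⟨⟨?_, ?_, fun δ hδ hδQ => absurd hδQ (hnombm δ hδ)⟩, ?_,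
      fun δ hδ hδQ => absurd hδQ (hnombm δ hδ)⟩
    · intro p hp
      rw [map_add, hlQ p hp, hyr.1 p hp, add_zero]
    · have e : T.B (l + y) (l + y) = T.B y y + 2 * T.B y l := by
        simp only [map_add, LinearMap.add_apply, hq, hT.symm l y]
        ring
      rw [e]
      have := hyr.2.1
      linarith
    · rw [map_add, hT.symm w₁ l]
      have := hyc.1
      linarith
  · rintro ⟨hy, c, rfl⟩
    refine ⟨hy, ?_⟩
    rw [hM']
    intro p hp
    rw [map_smul, hlQ p hp, smul_zero]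

theorem picard_one {M' : T.Mk} {l : V n} (hl : T.NefIsotropic M' l)
    (h : ∀ y, T.NS M' y ↔ IsInt y ∧ ∃ c : ℝ, y = c • l) :
    T.picard M' = 1 ∧ ¬ T.Projective M' := by
  constructor
  · have h1 : Submodule.span ℝ {x : V n | T.NS M' x} = Submodule.span ℝ {l} := by
      apply le_antisymm
      · rw [Submodule.span_le]
        intro y hy
        obtain ⟨-, c, rfl⟩ := (h y).1 hy
        exact Submodule.smul_mem _ _ (Submodule.mem_span_singleton_self l)
      · rw [Submodule.span_le, Set.singleton_subset_iff]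
        exact Submodule.subset_span hl.1
    rw [Moduli.picard, h1]
    exact finrank_span_singleton hl.2.1
  · rintro ⟨y, hy, hyy⟩
    obtain ⟨-, c, rfl⟩ := (h y).1 hy
    simp only [map_smul, LinearMap.smul_apply, smul_eq_mul, hl.2.2.1, mul_zero, lt_irrefl] at hyy

/-- A real isotropic class which is not of type `(1,1)`. -/
theorem exists_not_orth (hT : T.Facts) (hn : 4 ≤ n) {P : Submodule ℝ (V n)}
    (hP2 : Module.finrank ℝ P = 2) (hPp : T.PosDef P) :
    ∃ v p, v ≠ 0 ∧ T.B v v = 0 ∧ p ∈ P ∧ T.B p v ≠ 0 := by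
  obtain ⟨k, hk, hkk⟩ := exists_pos_orth hT hP2
  obtain ⟨e, he0, he, hke⟩ := exists_orth_orth hT hn hP2 k
  have hee := neg_of_orth hT hP2 hPp hk hkk he hke he0
  have hPbot : P ≠ ⊥ := by
    rintro rfl
    simp at hP2
  obtain ⟨p, hp, hp0⟩ := (Submodule.ne_bot_iff _).1 hPbot
  have hpp := hPp p hp hp0
  set τ : ℝ := Real.sqrt (T.B p p / -T.B e e) with hτ
  have hτ2 : τ ^ 2 * T.B e e = -T.B p p := by
    rw [hτ, Real.sq_sqrt (div_nonneg hpp.le (by linarith))]
    have : T.B e e ≠ 0 := hee.ne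
    field_simp
  have hpv : T.B p (p + τ • e) = T.B p p := by
    rw [map_add, map_smul, he p hp, smul_zero, add_zero]
  refine ⟨p + τ • e, p, ?_, ?_, hp, by rw [hpv]; exact hpp.ne'⟩
  · intro h
    rw [h, map_zero] at hpv
    exact hpp.ne hpv
  · have : T.B (p + τ • e) (p + τ • e) = T.B p p + τ ^ 2 * T.B e e := by
      simp only [map_add, LinearMap.add_apply, map_smul, LinearMap.smul_apply, smul_eq_mul,
        hT.symm e p, he p hp]
      ring
    rw [this, hτ2, add_neg_cancel]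

end

namespace Lines

variable {T : Lines.{u} n}

/-- Semiampleness in the form of the conclusion of the SYZ conjecture. -/
def toFib (T : Lines.{u} n) : Fibrations.{u} n :=
  { T.toModuli with
    mon := T.mon
    Fib := fun _ => PUnit
    pull := fun M _ => {x | T.semiample M x} }

theorem syz_iff (hT : T.Facts) (M : T.Mk) (l : V n) : T.toFib.SYZ M l ↔ T.semiample M l := by
  constructor
  · rintro ⟨_, k, hk, hkl⟩
    exact (hT.power M l k hk).1 hkl
  · intro h
    refine ⟨PUnit.unit, 1, one_pos, ?_⟩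
    exact (hT.power M l 1 one_pos).2 h

theorem toFib_facts (hT : T.Facts) : T.toFib.Facts where
  toFacts := hT.toFacts
  finite_index := hT.finite_index
  orbits := hT.orbits
  relabel := by
    intro φ hφ M
    obtain ⟨M', h1, h2⟩ := hT.relabel φ hφ M
    refine ⟨M', fun x => ?_, h2⟩
    rw [syz_iff hT, syz_iff hT]
    exact h1 x
  pull_smul := by
    intro M π x hx k hk
    exact (hT.power M x k hk).2 hx
  matsushita := by
    intro M M' l h1 h2 h3
    rw [syz_iff hT] at h3 ⊢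
    exact hT.matsushita M M' l h1 h2 h3

/-- **Main theorem.** -/
theorem twistor_decides (hT : T.Facts) (hn : 4 ≤ n) (M : T.Mk) :
    ∃ D : Set (V n), D.Countable ∧ (∀ d ∈ D, d ≠ 0 ∧ T.Orth (T.period M) d) ∧
      ∀ x ∈ T.kahler M, (∀ d ∈ D, T.B x d ≠ 0) →
        ∃ (m : ℕ) (M' : Fin m → T.Mk),
          (∀ i, Member T.toModuli M x (M' i) ∧ T.picard (M' i) = 1 ∧ ¬ T.Projective (M' i) ∧
            ∃ l, T.NefIsotropic (M' i) l) ∧
          [(∀ N l, T.NefIsotropic N l → T.semiample N l),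
           (∀ N, Member T.toModuli M x N → ¬ T.Projective N → (∃ l, T.NefIsotropic N l) →
              T.adim N = T.half),
           (∀ i, T.adim (M' i) = T.half)].TFAE := by
  have hF : T.toModuli.Facts := hT.toFacts
  have hFF := toFib_facts hT
  obtain ⟨hP2, hPp⟩ := hF.period M
  refine ⟨Exc T.toModuli (T.period M), exc_countable _ _, fun d hd => ⟨hd.1, hd.2.1⟩,
    fun x hx hgen => ?_⟩
  have hdec : T.toFib.FinitelyManyDecide fun M' _ => Member T.toModuli M x M' ∧
      T.picard M' = 1 ∧ ¬ T.Projective M' := by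
    refine Fibrations.decide_of hFF _ fun l hl h0 hq => ?_
    obtain ⟨v, p, hv0, hvv, hp, hpv⟩ := exists_not_orth hF hn hP2 hPp
    obtain ⟨φ, hφ, c, hc, hcφ⟩ := Fibrations.lim_all hFF hl h0 hq hv0 hvv {w | T.B p w ≠ 0}
      (isOpen_ne.preimage (LinearMap.continuous_of_finiteDimensional (T.B p))) hpv
    have hφP : ¬ T.Orth (T.period M) (φ l) := by
      intro h
      apply hcφ
      rw [map_smul, h p hp, smul_zero]
    obtain ⟨M₀, hM₀⟩ := Fibrations.exists_nef_of_isotropic hFF hl h0 hq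
    obtain ⟨M₁, -, hM₁⟩ := hT.relabel φ hφ M₀
    have hl1 := hM₁ l hM₀
    obtain ⟨M', hmem, hnef, hNS⟩ := exists_member hF hx hgen hl1.1.1 hl1.2.1 hl1.2.2.1 hφP
    exact ⟨M', φ, hφ, hnef, hmem, picard_one hnef hNS⟩
  obtain ⟨m, M', l, hM', -, hiff⟩ := hdec
  refine ⟨m, M', fun i => ⟨(hM' i).2.1, (hM' i).2.2.1, (hM' i).2.2.2, l i, (hM' i).1⟩, ?_⟩
  tfae_have 1 → 2 := by
    rintro h N - hN ⟨l, hl⟩
    exact hT.adim_of N l hN hl (h N l hl)
  tfae_have 2 → 3 := fun h i => h (M' i) (hM' i).2.1 (hM' i).2.2.2 ⟨l i, (hM' i).1⟩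
  tfae_have 3 → 1 := by
    intro h
    have h1 : ∀ N l, T.NefIsotropic N l → T.toFib.SYZ N l := hiff.2 fun i =>
      (syz_iff hT _ _).2 (hT.of_adim (M' i) (l i) (hM' i).2.2.2 (h i) (hM' i).1)
    intro N l hl
    exact (syz_iff hT _ _).1 (h1 N l hl)
  tfae_finish

end Lines

end Pool.Agent.Q34.HT
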